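import Pool.Agent.Helper75.SR.Goals1

/-!
# MP_d08e19_gt: the second variation integrand in the moving frame
-/

namespace Pool.Agent.Helper37.SR

open Pool.Agent.Helper75.SR

variable {E : Type} [NormedAddCommGroup E] [NormedSpace ℝ E]

/-- The value of a bilinear form on two combinations of seven orthonormal vectors. -/
theorem g7 (B : E →L[ℝ] E →L[ℝ] ℝ) (v : Fin 7 → E)
    (h : ∀ i j, B (v i) (v j) = if i = j then 1 else 0) (a b : Fin 7 → ℝ) :
    B (∑ i, a i • v i) (∑ i, b i • v i) = ∑ i, a i * b i := by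
  simp only [map_sum, map_smul, _root_.sum_apply, _root_.smul_apply,
    smul_eq_mul, h]
  refine Finset.sum_congr rfl fun i _ => ?_
  simp [mul_comm]

section Curv

variable {U : Set E} (S : LocSas E U)

theorem R_add₁ (x u u' v w : E) : S.R x (u + u') v w = S.R x u v w + S.R x u' v w := by
  simp only [LocSas.R, map_add, _root_.add_apply]; abel

theorem R_smul₁ (x : E) (c : ℝ) (u v w : E) : S.R x (c • u) v w = c • S.R x u v w := by
  simp only [LocSas.R, map_smul, _root_.smul_apply]; module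

theorem R_add₂ (x u v v' w : E) : S.R x u (v + v') w = S.R x u v w + S.R x u v' w := by
  simp only [LocSas.R, map_add, _root_.add_apply]; abel

theorem R_smul₂ (x : E) (c : ℝ) (u v w : E) : S.R x u (c • v) w = c • S.R x u v w := by
  simp only [LocSas.R, map_smul, _root_.smul_apply]; module

theorem R_add₃ (x u v w w' : E) : S.R x u v (w + w') = S.R x u v w + S.R x u v w' := by
  simp only [LocSas.R, map_add]; abel

theorem R_smul₃ (x : E) (c : ℝ) (u v w : E) : S.R x u v (c • w) = c • S.R x u v w := by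
  simp only [LocSas.R, map_smul]; module

end Curv

theorem frame (hA : GAlg) (hC : GCurv) : GFrame := by
  intro E _ _ U S β τ w x hx e he0 he1 p p' f f' g g' V V' hV hD
  have hsymm := S.g_symm x hx
  have hkill : ∀ (a : Fin 3) (v w : E),
      S.g x (S.phi a x v) w = - S.g x v (S.phi a x w) := fun a v w => S.killing x hx a v w
  have horth := S.orth x hx
  have he0' : ∀ a, S.g x e (S.xi a x) = 0 := fun a => by rw [hsymm]; exact he0 a
  -- algebra
  have A1 : ∀ a, S.phi a x (S.xi a x) = 0 := fun a => (hA E U S x hx a e).1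
  have A2 : ∀ a, S.phi a x (S.xi (a + 1) x) = S.xi (a + 2) x := fun a => (hA E U S x hx a e).2.1
  have A3 : ∀ a, S.phi a x (S.xi (a + 2) x) = - S.xi (a + 1) x :=
    fun a => (hA E U S x hx a e).2.2.1
  have A4 : ∀ a, S.phi a x (S.phi a x e) = -e := fun a => by
    rw [(hA E U S x hx a e).2.2.2.1, he0]; simp
  have A5 : ∀ a, S.phi a x (S.phi (a + 1) x e) = S.phi (a + 2) x e := fun a => by
    rw [(hA E U S x hx a e).2.2.2.2.1, he0]; simp
  have A6 : ∀ a, S.phi a x (S.phi (a + 2) x e) = - S.phi (a + 1) x e := fun a => by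
    rw [(hA E U S x hx a e).2.2.2.2.2, he0]; simp
  have e01 : (0 : Fin 3) + 1 = 1 := rfl
  have e02 : (0 : Fin 3) + 2 = 2 := rfl
  have e11 : (1 : Fin 3) + 1 = 2 := rfl
  have e12 : (1 : Fin 3) + 2 = 0 := rfl
  have e21 : (2 : Fin 3) + 1 = 0 := rfl
  have e22 : (2 : Fin 3) + 2 = 1 := rfl
  have x00 := A1 0
  have x11 := A1 1
  have x22 := A1 2
  have x01 := A2 0
  have x12 := A2 1
  have x20 := A2 2
  have x02 := A3 0
  have x10 := A3 1
  have x21 := A3 2
  have y01 := A5 0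
  have y12 := A5 1
  have y20 := A5 2
  have y02 := A6 0
  have y10 := A6 1
  have y21 := A6 2
  rw [e01, e02] at x01 x02 y01 y02
  rw [e11, e12] at x12 x10 y12 y10
  rw [e21, e22] at x20 x21 y20 y21
  -- orthonormality
  have o1 : ∀ a, S.g x e (S.phi a x e) = 0 := fun a => by
    have h1 := hkill a e e
    rw [hsymm] at h1
    linarith
  have o1' : ∀ a, S.g x (S.phi a x e) e = 0 := fun a => by rw [hsymm]; exact o1 a
  have o2 : ∀ a, S.g x (S.phi a x e) (S.phi a x e) = 1 := fun a => by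
    rw [hkill, A4]; simp [he1]
  have o3 : ∀ a b, S.g x (S.phi a x e) (S.xi b x) = 0 := by
    intro a b
    rw [hkill]
    fin_cases a <;> fin_cases b <;>
      simp [x00, x11, x22, x01, x12, x20, x02, x10, x21, he0']
  have o3' : ∀ a b, S.g x (S.xi b x) (S.phi a x e) = 0 := fun a b => by rw [hsymm]; exact o3 a b
  have o4 : ∀ a b, a ≠ b → S.g x (S.phi a x e) (S.phi b x e) = 0 := by
    intro a b hab
    rw [hkill]
    fin_cases a <;> fin_cases b <;>
      simp [y01, y12, y20, y02, y10, y21, o1] at hab ⊢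
  set v : Fin 7 → E := ![e, S.phi 0 x e, S.phi 1 x e, S.phi 2 x e, S.xi 0 x, S.xi 1 x, S.xi 2 x]
    with hv
  have hvv : ∀ i j, S.g x (v i) (v j) = if i = j then 1 else 0 := by
    intro i j
    fin_cases i <;> fin_cases j <;> simp [hv, he1, he0, he0', o1, o1', o2, o3, o3', o4, horth]
  have key : ∀ a b : Fin 7 → ℝ, S.g x (∑ i, a i • v i) (∑ i, b i • v i) = ∑ i, a i * b i :=
    g7 (S.g x) v hvv
  set T : E := τ • e + w • S.xi 0 x with hT
  set W : E := S.D x T V V' with hW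
  -- coordinates
  have cV : V = ∑ i, (![p, f 0, f 1, f 2, g 0, g 1, g 2] : Fin 7 → ℝ) i • v i := by
    rw [hV, Fin.sum_univ_seven, Fin.sum_univ_three, Fin.sum_univ_three]
    simp [hv]
    abel
  have cT : T = ∑ i, (![τ, 0, 0, 0, w, 0, 0] : Fin 7 → ℝ) i • v i := by
    rw [hT, Fin.sum_univ_seven]
    simp [hv]
  have cW : W = ∑ i, (![p' - (2 * (1 + β) * w - w) * f 0,
      f' 0 + (2 * (1 + β) * w - w) * p - τ * g 0,
      f' 1 + (2 * (1 + β) * w - w) * f 2 - τ * g 1,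
      f' 2 - (2 * (1 + β) * w - w) * f 1 - τ * g 2,
      g' 0 + τ * f 0, g' 1 + τ * f 1 - w * g 2,
      g' 2 + τ * f 2 + w * g 1] : Fin 7 → ℝ) i • v i := by
    rw [hD, Fin.sum_univ_seven]
    simp [hv]
  have cx0 : S.xi 0 x = ∑ i, (![0, 0, 0, 0, 1, 0, 0] : Fin 7 → ℝ) i • v i := by
    rw [Fin.sum_univ_seven]; simp [hv]
  have cx1 : S.xi 1 x = ∑ i, (![0, 0, 0, 0, 0, 1, 0] : Fin 7 → ℝ) i • v i := by
    rw [Fin.sum_univ_seven]; simp [hv]
  have cx2 : S.xi 2 x = ∑ i, (![0, 0, 0, 0, 0, 0, 1] : Fin 7 → ℝ) i • v i := by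
    rw [Fin.sum_univ_seven]; simp [hv]
  have cp0T : S.phi 0 x T = ∑ i, (![0, τ, 0, 0, 0, 0, 0] : Fin 7 → ℝ) i • v i := by
    rw [hT, Fin.sum_univ_seven, map_add, map_smul, map_smul, x00]; simp [hv]
  have cp1T : S.phi 1 x T = ∑ i, (![0, 0, τ, 0, 0, 0, -w] : Fin 7 → ℝ) i • v i := by
    rw [hT, Fin.sum_univ_seven, map_add, map_smul, map_smul, x10]; simp [hv]
  have cp2T : S.phi 2 x T = ∑ i, (![0, 0, 0, τ, 0, w, 0] : Fin 7 → ℝ) i • v i := by
    rw [hT, Fin.sum_univ_seven, map_add, map_smul, map_smul, x20]; simp [hv]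
  have cp0V : S.phi 0 x V = ∑ i, (![-f 0, p, -f 2, f 1, 0, -g 2, g 1] : Fin 7 → ℝ) i • v i := by
    rw [hV, Fin.sum_univ_seven, Fin.sum_univ_three, Fin.sum_univ_three]
    simp only [map_add, map_smul, x00, x01, x02, y01, y02, A4]
    simp [hv]
    module
  have vWW : S.g x W W = (p' - (2 * (1 + β) * w - w) * f 0) ^ 2
      + (f' 0 + (2 * (1 + β) * w - w) * p - τ * g 0) ^ 2
      + (f' 1 + (2 * (1 + β) * w - w) * f 2 - τ * g 1) ^ 2
      + (f' 2 - (2 * (1 + β) * w - w) * f 1 - τ * g 2) ^ 2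
      + (g' 0 + τ * f 0) ^ 2 + (g' 1 + τ * f 1 - w * g 2) ^ 2
      + (g' 2 + τ * f 2 + w * g 1) ^ 2 := by
    rw [cW, key, Fin.sum_univ_seven]; simp; ring
  have vVV : S.g x V V = p ^ 2 + f 0 ^ 2 + f 1 ^ 2 + f 2 ^ 2 + g 0 ^ 2 + g 1 ^ 2 + g 2 ^ 2 := by
    rw [cV, key, Fin.sum_univ_seven]; simp; ring
  have vVT : S.g x V T = τ * p + w * g 0 := by
    rw [cV, cT, key, Fin.sum_univ_seven]; simp; ring
  have vTV : S.g x T V = τ * p + w * g 0 := by rw [hsymm]; exact vVT
  have ve : ∀ a : Fin 7 → ℝ, S.g x (∑ i, a i • v i) e = a 0 := by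
    intro a
    have h1 : e = ∑ i, (![1, 0, 0, 0, 0, 0, 0] : Fin 7 → ℝ) i • v i := by
      rw [Fin.sum_univ_seven]; simp [hv]
    conv_lhs => rw [h1]
    rw [key, Fin.sum_univ_seven]; simp
  have vVe : S.g x V e = p := by rw [cV, ve]; simp
  have vx0T : S.g x (S.xi 0 x) T = w := by
    rw [cx0, cT, key, Fin.sum_univ_seven]; simp
  have vx1T : S.g x (S.xi 1 x) T = 0 := by
    rw [cx1, cT, key, Fin.sum_univ_seven]; simp
  have vx2T : S.g x (S.xi 2 x) T = 0 := by
    rw [cx2, cT, key, Fin.sum_univ_seven]; simp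
  have vx0V : S.g x (S.xi 0 x) V = g 0 := by
    rw [cx0, cV, key, Fin.sum_univ_seven]; simp
  have vx1V : S.g x (S.xi 1 x) V = g 1 := by
    rw [cx1, cV, key, Fin.sum_univ_seven]; simp
  have vx2V : S.g x (S.xi 2 x) V = g 2 := by
    rw [cx2, cV, key, Fin.sum_univ_seven]; simp
  have vx0W : S.g x (S.xi 0 x) W = g' 0 + τ * f 0 := by
    rw [cx0, cW, key, Fin.sum_univ_seven]; simp
  have vx1W : S.g x (S.xi 1 x) W = g' 1 + τ * f 1 - w * g 2 := by
    rw [cx1, cW, key, Fin.sum_univ_seven]; simp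
  have vx2W : S.g x (S.xi 2 x) W = g' 2 + τ * f 2 + w * g 1 := by
    rw [cx2, cW, key, Fin.sum_univ_seven]; simp
  have vp0TV : S.g x (S.phi 0 x T) V = τ * f 0 := by
    rw [cp0T, cV, key, Fin.sum_univ_seven]; simp
  have vp1TV : S.g x (S.phi 1 x T) V = τ * f 1 - w * g 2 := by
    rw [cp1T, cV, key, Fin.sum_univ_seven]; simp; ring
  have vp2TV : S.g x (S.phi 2 x T) V = τ * f 2 + w * g 1 := by
    rw [cp2T, cV, key, Fin.sum_univ_seven]; simp
  have vWp0V : S.g x W (S.phi 0 x V) =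
      -f 0 * (p' - (2 * (1 + β) * w - w) * f 0)
      + p * (f' 0 + (2 * (1 + β) * w - w) * p - τ * g 0)
      - f 2 * (f' 1 + (2 * (1 + β) * w - w) * f 2 - τ * g 1)
      + f 1 * (f' 2 - (2 * (1 + β) * w - w) * f 1 - τ * g 2)
      - g 2 * (g' 1 + τ * f 1 - w * g 2) + g 1 * (g' 2 + τ * f 2 + w * g 1) := by
    rw [cW, cp0V, key, Fin.sum_univ_seven]; simp; ring
  -- curvature
  have C1 : ∀ u v w : E, S.R x u v w = - S.R x v u w := fun u v w => (hC E U S x hx 0 u v w w).1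
  have C2 : ∀ u v w z : E, S.g x (S.R x u v w) z = - S.g x w (S.R x u v z) :=
    fun u v w z => (hC E U S x hx 0 u v w z).2.1
  have C4 : ∀ u v w z : E, S.g x (S.R x u v w) z = S.g x (S.R x w z u) v :=
    fun u v w z => (hC E U S x hx 0 u v w z).2.2.2.1
  have C5 : ∀ (a : Fin 3) (u v : E), S.R x u v (S.xi a x) =
      S.g x (S.xi a x) v • u - S.g x (S.xi a x) u • v :=
    fun a u v => (hC E U S x hx a u v v v).2.2.2.2.1
  have r0 : ∀ u w : E, S.R x u u w = 0 := by
    intro u w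
    have h1 := C1 u u w
    have h2 : (2 : ℝ) • S.R x u u w = 0 := by
      rw [two_smul]; nth_rewrite 1 [h1]; simp
    exact (smul_eq_zero.mp h2).resolve_left two_ne_zero
  have rx : ∀ (a : Fin 3) (Y : E), S.g x (S.R x (S.xi a x) e e) Y = S.g x (S.xi a x) Y := by
    intro a Y
    rw [C4, C5, he0]
    simp [he1]
  have rp : ∀ (a : Fin 3), S.g x (S.R x (S.phi a x e) e e) e = 0 := by
    intro a
    have h1 := C2 (S.phi a x e) e e e
    rw [hsymm e] at h1
    linarith
  have rpx : ∀ (a b : Fin 3), S.g x (S.R x (S.phi a x e) e e) (S.xi b x) = 0 := by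
    intro a b
    rw [C2, C5, he0, o3']
    simp
  have k1 : S.g x (S.R x V e e) V =
      ∑ a, ∑ b, S.g x (S.R x (S.phi a x e) e e) (S.phi b x e) * f a * f b
        + (g 0 ^ 2 + g 1 ^ 2 + g 2 ^ 2) := by
    have h1 : S.R x V e e = ∑ a, f a • S.R x (S.phi a x e) e e
        + ∑ a, g a • S.R x (S.xi a x) e e := by
      rw [hV]
      simp only [Fin.sum_univ_three, R_add₁, R_smul₁, r0]
      simp
    have h2 : ∀ a, S.g x (S.R x (S.phi a x e) e e) V =
        ∑ b, S.g x (S.R x (S.phi a x e) e e) (S.phi b x e) * f b := by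
      intro a
      rw [hV]
      simp only [Fin.sum_univ_three, map_add, map_smul, rp, rpx, smul_eq_mul]
      ring
    rw [h1]
    simp only [map_add, map_sum, map_smul, _root_.add_apply, _root_.sum_apply, _root_.smul_apply,
      smul_eq_mul, rx, h2]
    simp only [Fin.sum_univ_three, vx0V, vx1V, vx2V]
    ring
  have k2 : S.g x (S.R x e V V) (S.xi 0 x) = - (g 0 * p) := by
    rw [C2, C5, he0, vx0V]
    simp [vVe]
  have k3 : S.g x (S.R x V T e) V = τ * S.g x (S.R x V e e) V - w * (g 0 * p) := by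
    rw [C4, hT]
    rw [map_add, map_smul, map_smul, k2, C4 V e e V]
    simp
    ring
  have k4 : S.g x (S.R x V T T) V = τ * S.g x (S.R x V T e) V
      + w * (w * S.g x V V - g 0 * S.g x T V) := by
    have h1 : S.R x V T T = τ • S.R x V T e + w • (w • V - g 0 • T) := by
      conv_lhs => rw [show S.R x V T T = S.R x V T (τ • e + w • S.xi 0 x) from by rw [← hT]]
      rw [R_add₃, R_smul₃, R_smul₃, C5, vx0T, vx0V]
    rw [h1]
    simp only [map_add, map_sub, map_smul, _root_.add_apply, _root_.sub_apply,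
      _root_.smul_apply, smul_eq_mul]
  have t0 : S.dEta 0 x T V V' = g' 0 + 2 * τ * f 0 := by
    rw [LocSas.dEta, ← hW, vx0W, vp0TV]; ring
  have t1 : S.dEta 1 x T V V' = g' 1 + 2 * τ * f 1 - 2 * w * g 2 := by
    rw [LocSas.dEta, ← hW, vx1W, vp1TV]; ring
  have t2 : S.dEta 2 x T V V' = g' 2 + 2 * τ * f 2 + 2 * w * g 1 := by
    rw [LocSas.dEta, ← hW, vx2W, vp2TV]; ring
  have t3 : S.ddEta 0 x T V V' = -2 * w * S.g x V V + 2 * g 0 * S.g x V T
      - 2 * S.g x W (S.phi 0 x V) := by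
    rw [LocSas.ddEta, ← hW, vx0T, vx0V]
  rw [LocSas.QQ, ← hW, vWW, k4, k3, k1, Fin.sum_univ_three (fun a => S.dEta a x T V V' ^ 2
      + S.g x (S.xi a x) T * S.ddEta a x T V V'), t0, t1, t2, vx0T, vx1T, vx2T, t3, vVV, vVT, vTV,
    vWp0V]
  simp only [qq]
  ring

end Pool.Agent.Helper37.SR
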